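import Pool.Agent.Helper61.RC.Base2

/-!
# Dispersal of functions in the crossed product (RC-26, RC-27, RC-28)
-/

open scoped ENNReal NNReal Topology CStarAlgebra ComplexOrder
open Filter

noncomputable section

namespace Pool.Agent.Helper61.RC

/-- transitivity of Cuntz subequivalence -/
theorem cuntz_trans_aux {M : Type*} [CStarAlgebra M] {a b c : M} (hab : CuntzLE a b)
    (hbc : CuntzLE b c) : CuntzLE a c := by
  intro ε hε
  obtain ⟨w, hw⟩ := hab (ε / 2) (by positivity)
  have hpos : 0 < 2 * (‖w‖ ^ 2 + 1) := by positivity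
  obtain ⟨v, hv⟩ := hbc (ε / (2 * (‖w‖ ^ 2 + 1))) (by positivity)
  refine ⟨w * v, ?_⟩
  have h1 : w * v * c * star (w * v) - a
      = w * (v * c * star v - b) * star w + (w * b * star w - a) := by
    rw [star_mul]
    noncomm_ring
  rw [h1]
  have h2 : ‖w * (v * c * star v - b) * star w‖ ≤ ‖w‖ * ‖v * c * star v - b‖ * ‖w‖ := by
    refine (norm_mul_le _ _).trans ?_
    rw [norm_star]
    gcongr
    exact norm_mul_le _ _
  have h3 : ‖w‖ * ‖v * c * star v - b‖ * ‖w‖ ≤ ε / 2 := by
    have h4 : ‖w‖ * ‖v * c * star v - b‖ * ‖w‖ = ‖w‖ ^ 2 * ‖v * c * star v - b‖ := by ring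
    rw [h4]
    calc ‖w‖ ^ 2 * ‖v * c * star v - b‖ ≤ (‖w‖ ^ 2 + 1) * (ε / (2 * (‖w‖ ^ 2 + 1))) := by
          gcongr
          linarith
      _ = ε / 2 := by field_simp
  calc ‖w * (v * c * star v - b) * star w + (w * b * star w - a)‖
      ≤ ‖w * (v * c * star v - b) * star w‖ + ‖w * b * star w - a‖ := norm_add_le _ _
    _ < ε / 2 + ε / 2 := by linarith
    _ = ε := by ring

section
variable {X : Type*} [TopologicalSpace X] [CompactSpace X]

/-- comparison of functions -/
theorem cuntz_fun_le (h : X ≃ₜ X) (f g : C(X, ℝ)) (C : ℝ) (hC : 0 < C) (hf : ∀ x, 0 ≤ f x)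
    (hfg : ∀ x, f x ≤ C * g x) : CuntzLE (cfun h f) (cfun h g) := by
  intro ε hε
  have hg : ∀ x, 0 ≤ g x := by
    intro x
    have h1 := (hf x).trans (hfg x)
    exact nonneg_of_mul_nonneg_right h1 hC
  set δ : ℝ := ε / (2 * C) with hδ
  have hδ0 : 0 < δ := by positivity
  have hne : ∀ x, 0 < g x + δ := fun x => by have := hg x; linarith
  let r : C(X, ℝ) := ⟨fun x => Real.sqrt (f x / (g x + δ)),
    Real.continuous_sqrt.comp (f.continuous.div (g.continuous.add continuous_const)
      fun x => (hne x).ne')⟩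
  refine ⟨cfun h r, ?_⟩
  rw [star_cfun, ← cfun_mul, ← cfun_mul, ← cfun_sub]
  refine (norm_cfun_le h (C := ε / 2) (by positivity) ?_).trans_lt (by linarith)
  intro x
  have hr : r x * r x = f x / (g x + δ) := by
    change Real.sqrt (f x / (g x + δ)) * Real.sqrt (f x / (g x + δ)) = _
    exact Real.mul_self_sqrt (div_nonneg (hf x) (hne x).le)
  have h2 : (r * g * r - f) x = -(δ * (f x / (g x + δ))) := by
    have h3 : (r * g * r - f) x = r x * r x * g x - f x := by
      simp only [ContinuousMap.sub_apply, ContinuousMap.mul_apply]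
      ring
    rw [h3, hr]
    have := (hne x).ne'
    field_simp
    ring
  rw [h2, abs_neg, abs_of_nonneg (mul_nonneg hδ0.le (div_nonneg (hf x) (hne x).le))]
  have h4 : f x / (g x + δ) ≤ C := by
    rw [div_le_iff₀ (hne x)]
    have := hfg x
    nlinarith
  calc δ * (f x / (g x + δ)) ≤ δ * C := by gcongr
    _ = ε / 2 := by rw [hδ]; field_simp

-- RC-26
theorem shift_sum_conj_aux (h : X ≃ₜ X) {ι : Type*} (s : Finset ι) (q : ι → ℤ) (F : ι → C(X, ℝ))
    (ω : C(X, ℝ))
    (horth : ∀ a ∈ s, ∀ b ∈ s, a ≠ b → ∀ x, F a x * F b ((h ^ (q a - q b)) x) = 0) :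
    CuntzLE (cfun h (∑ a ∈ s, F a * F a * ω.comp ((h ^ (q a) : X ≃ₜ X) : C(X, X))))
      (cfun h ω) := by
  classical
  intro ε hε
  refine ⟨∑ a ∈ s, cfun h (F a) * uZ h (-(q a)), ?_⟩
  have key : (∑ a ∈ s, cfun h (F a) * uZ h (-(q a))) * cfun h ω *
      star (∑ a ∈ s, cfun h (F a) * uZ h (-(q a)))
      = cfun h (∑ a ∈ s, F a * F a * ω.comp ((h ^ (q a) : X ≃ₜ X) : C(X, X))) := by
    rw [star_sum, Finset.sum_mul, Finset.sum_mul, cfun_sum]
    refine Finset.sum_congr rfl fun a ha => ?_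
    rw [Finset.mul_sum]
    have hterm : ∀ b ∈ s, cfun h (F a) * uZ h (-(q a)) * cfun h ω *
        star (cfun h (F b) * uZ h (-(q b)))
        = cfun h (F a * ω.comp ((h ^ (q a) : X ≃ₜ X) : C(X, X)) *
            (F b).comp ((h ^ (q a - q b) : X ≃ₜ X) : C(X, X))) * uZ h (q b - q a) := by
      intro b _
      have e1 : uZ h (-(q a)) * cfun h ω
          = cfun h (ω.comp ((h ^ (q a) : X ≃ₜ X) : C(X, X))) * uZ h (-(q a)) := by
        rw [uZ_mul_cfun, neg_neg]
      have e2 : uZ h (-(q a)) * (uZ h (q b) * cfun h (F b))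
          = cfun h ((F b).comp ((h ^ (q a - q b) : X ≃ₜ X) : C(X, X))) * uZ h (q b - q a) := by
        rw [← mul_assoc, ← uZ_add, uZ_mul_cfun]
        have e3 : -(-(q a) + q b) = q a - q b := by ring
        have e4 : -(q a) + q b = q b - q a := by ring
        rw [e3, e4]
      rw [star_mul, star_cfun, star_uZ, neg_neg, mul_assoc (cfun h (F a)), e1, cfun_mul, cfun_mul]
      calc cfun h (F a) * (cfun h (ω.comp ((h ^ (q a) : X ≃ₜ X) : C(X, X))) * uZ h (-(q a))) *
            (uZ h (q b) * cfun h (F b))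
          = cfun h (F a) * cfun h (ω.comp ((h ^ (q a) : X ≃ₜ X) : C(X, X))) *
            (uZ h (-(q a)) * (uZ h (q b) * cfun h (F b))) := by
            simp only [mul_assoc]
        _ = _ := by rw [e2]; simp only [mul_assoc]
    rw [Finset.sum_congr rfl hterm, Finset.sum_eq_single_of_mem a ha]
    · rw [sub_self, uZ_zero, mul_one]
      congr 1
      ext x
      simp only [ContinuousMap.mul_apply, ContinuousMap.comp_apply]
      have e5 : ((h ^ (0 : ℤ) : X ≃ₜ X) : C(X, X)) x = x := by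
        rw [zpow_zero]; rfl
      rw [e5]
      ring
    · intro b hb hba
      have hz : F a * ω.comp ((h ^ (q a) : X ≃ₜ X) : C(X, X)) *
            (F b).comp ((h ^ (q a - q b) : X ≃ₜ X) : C(X, X)) = 0 := by
        ext x
        have h1 := horth a ha b hb (Ne.symm hba) x
        simp only [ContinuousMap.mul_apply, ContinuousMap.comp_apply, ContinuousMap.zero_apply]
        change F a x * ω ((h ^ q a) x) * F b ((h ^ (q a - q b)) x) = 0
        calc F a x * ω ((h ^ q a) x) * F b ((h ^ (q a - q b)) x)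
            = (F a x * F b ((h ^ (q a - q b)) x)) * ω ((h ^ q a) x) := by ring
          _ = 0 := by rw [h1, zero_mul]
      rw [hz, cfun_zero, zero_mul]
  rw [key, sub_self, norm_zero]
  exact hε

end

section D
variable {X : Type*} [MetricSpace X] [CompactSpace X]

-- RC-26
theorem shift_sum_conj (h : X ≃ₜ X) {ι : Type*} (s : Finset ι) (q : ι → ℤ) (F : ι → C(X, ℝ))
    (ω : C(X, ℝ))
    (horth : ∀ a ∈ s, ∀ b ∈ s, a ≠ b → ∀ x, F a x * F b ((h ^ (q a - q b)) x) = 0) :
    CuntzLE (cfun h (∑ a ∈ s, F a * F a * ω.comp ((h ^ (q a) : X ≃ₜ X) : C(X, X))))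
      (cfun h ω) :=
  shift_sum_conj_aux h s q F ω horth

-- RC-27
theorem disperse_finite (h : X ≃ₜ X) (J : ℕ) (ρ ω : C(X, ℝ)) (hρ : ∀ x, 0 ≤ ρ x) (m : ℤ → ℤ)
    (c : ℝ) (hc : 0 < c)
    (h1 : ∀ j ∈ Finset.Icc (-(J : ℤ)) J, ∀ x, 0 < ρ x → c ≤ ω ((h ^ m j) x))
    (h2 : ∀ j ∈ Finset.Icc (-(J : ℤ)) J, ∀ j' ∈ Finset.Icc (-(J : ℤ)) J, j ≠ j' →
      ∀ x, 0 < ρ x → ρ ((h ^ (m j - m j')) x) = 0) :
    CuntzLE (cfun h (∑ j ∈ Finset.Icc (-(J : ℤ)) J, ρ.comp ((h ^ j : X ≃ₜ X) : C(X, X))))
      (cfun h ω) := by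
  let F : ℤ → C(X, ℝ) := fun j => ⟨fun x => Real.sqrt (ρ ((h ^ j) x)),
    Real.continuous_sqrt.comp (ρ.continuous.comp (h ^ j).continuous)⟩
  have hF : ∀ j x, F j x = Real.sqrt (ρ ((h ^ j) x)) := fun j x => rfl
  have hFF : ∀ j x, F j x * F j x = ρ ((h ^ j) x) := fun j x =>
    Real.mul_self_sqrt (hρ _)
  have hzadd : ∀ (a b : ℤ) (x : X), (h ^ (a + b)) x = (h ^ a) ((h ^ b) x) := by
    intro a b x
    rw [zpow_add, Homeomorph.mul_apply]
  have step := shift_sum_conj h (Finset.Icc (-(J : ℤ)) J) (fun j => m j + j) F ω ?_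
  · refine cuntz_trans_aux (cuntz_fun_le h _ _ (1 / c) (by positivity) ?_ ?_) step
    · intro x
      rw [ContinuousMap.sum_apply]
      exact Finset.sum_nonneg fun j _ => hρ _
    · intro x
      rw [ContinuousMap.sum_apply, ContinuousMap.sum_apply, Finset.mul_sum]
      refine Finset.sum_le_sum fun j hj => ?_
      simp only [ContinuousMap.mul_apply, ContinuousMap.comp_apply]
      change ρ ((h ^ j) x) ≤ 1 / c * (F j x * F j x * ω ((h ^ (m j + j)) x))
      rw [hFF, hzadd]
      rcases (hρ ((h ^ j) x)).eq_or_lt with h0 | h0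
      · rw [← h0]; simp
      · have h3 := h1 j hj _ h0
        rw [one_div, ← mul_assoc]
        calc ρ ((h ^ j) x) = c⁻¹ * ρ ((h ^ j) x) * c := by field_simp
          _ ≤ _ := by gcongr
  · intro a ha b hb hab x
    rw [hF, hF, ← hzadd]
    have e1 : b + (m a + a - (m b + b)) = (m a - m b) + a := by ring
    simp only [e1]
    rw [hzadd]
    rcases (hρ ((h ^ a) x)).eq_or_lt with h0 | h0
    · rw [← h0]; simp
    · rw [h2 a ha b hb hab _ h0]; simp

/-- distance to the nearest integer is continuous -/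
theorem continuous_abs_sub_round : Continuous fun t : ℝ => |t - round t| := by
  have h1 : (fun t : ℝ => |t - round t|) = fun t : ℝ => ‖(t : UnitAddCircle)‖ := by
    funext t
    exact (UnitAddCircle.norm_eq).symm
  rw [h1]
  exact continuous_norm.comp (AddCircle.continuous_mk' 1)

/-- a continuous function which agrees with `t - round t` near the integers -/
def sigC (t : ℝ) : ℝ := |t + 1 / 4 - round (t + 1 / 4)| - 1 / 4

theorem continuous_sigC : Continuous sigC := by
  unfold sigC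
  exact (continuous_abs_sub_round.comp (continuous_id.add continuous_const)).sub continuous_const

theorem sigC_eq {t : ℝ} (ht : |t - round t| < 1 / 4) : sigC t = t - round t := by
  have h1 := abs_lt.1 ht
  have h2 : round (t + 1 / 4) = round t := by
    rw [round_eq, Int.floor_eq_iff]
    constructor
    · linarith
    · linarith
  unfold sigC
  rw [h2, abs_of_nonneg (by linarith)]
  ring

/-- the trapezoid function -/
def trap (L : ℕ) (t : ℝ) : ℝ := max 0 (min 1 (min (t + 1) (L + 1 - t)))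

theorem continuous_trap (L : ℕ) : Continuous (trap L) := by
  unfold trap
  fun_prop

theorem trap_eq_one {L : ℕ} {t : ℝ} (h0 : 0 ≤ t) (h1 : t ≤ L) : trap L t = 1 := by
  unfold trap
  rw [min_eq_left, max_eq_right zero_le_one]
  exact le_min (by linarith) (by linarith)

theorem trap_ne_zero {L : ℕ} {t : ℝ} (h : trap L t ≠ 0) : -1 < t ∧ t < L + 1 := by
  unfold trap at h
  by_contra hc
  apply h
  rw [not_and_or, not_lt, not_lt] at hc
  apply max_eq_left
  rcases hc with hc | hc
  · exact (min_le_right _ _).trans ((min_le_left _ _).trans (by linarith))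
  · exact (min_le_right _ _).trans ((min_le_right _ _).trans (by linarith))

theorem tent_pos {w₀ s : ℝ} (hw₀ : 0 < w₀) (h : 0 < tent w₀ s) : |s - round s| < w₀ := by
  unfold tent at h
  rw [lt_max_iff] at h
  rcases h with h | h
  · exact absurd h (lt_irrefl _)
  · have : |s - round s| / w₀ < 1 := by linarith
    rwa [div_lt_one hw₀] at this

theorem tent_nonneg (w₀ s : ℝ) : 0 ≤ tent w₀ s := le_max_left _ _

-- RC-28
theorem disperse_slide (h : X ≃ₜ X) (s g ω T : C(X, ℝ)) (κ w₀ c : ℝ) (hκ : 0 < κ)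
    (hw₀ : 0 < w₀) (hc : 0 < c) (L R : ℕ) (hL : 1 ≤ L)
    (hpar : 2 * ((L : ℝ) + 1) * w₀ + 2 * ((L : ℝ) + 1) * κ + 2 * w₀ < 1)
    (hR : 2 * (((L : ℝ) + 1) * w₀ / κ + L + 1) ≤ R) (hg : ∀ x, 0 ≤ g x ∧ g x ≤ 1)
    (hs : ∀ x, 0 < g x → ∀ j : ℤ, |j| ≤ R → s ((h ^ j) x) = s x + j * (1 + κ))
    (hT : ∀ x, T x = tent w₀ (s x) * g x) (hω0 : ∀ x, 0 ≤ ω x)
    (hω : ∀ x, ∃ j : ℕ, j < L ∧ c ≤ ω ((h ^ (j : ℤ)) x)) :
    CuntzLE (cfun h T) (cfun h ω) := by
  have hL' : (1 : ℝ) ≤ L := by exact_mod_cast hL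
  have hw4 : w₀ < 1 / 4 := by nlinarith
  have hT0 : ∀ x, 0 ≤ T x := fun x => by
    rw [hT]; exact mul_nonneg (tent_nonneg _ _) (hg x).1
  have hTpos : ∀ x, 0 < T x → 0 < g x ∧ |s x - round (s x)| < w₀ := by
    intro x hx
    rw [hT] at hx
    have h1 : 0 < g x := by
      rcases (hg x).1.eq_or_lt with h0 | h0
      · rw [← h0, mul_zero] at hx
        exact absurd hx (lt_irrefl _)
      · exact h0
    exact ⟨h1, tent_pos hw₀ (pos_of_mul_pos_left hx h1.le)⟩
  set Q : ℕ := R / 2 with hQ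
  have hQ1 : (2 * Q : ℤ) ≤ R := by
    have : 2 * Q ≤ R := Nat.mul_div_le R 2
    exact_mod_cast this
  have hQ2 : (R : ℝ) / 2 - 1 ≤ Q := by
    have : R ≤ 2 * Q + 1 := by omega
    have h' : (R : ℝ) ≤ 2 * Q + 1 := by exact_mod_cast this
    linarith
  set a : X → ℝ := fun x => ((L : ℝ) + 1) * sigC (s x) / κ with ha
  let F : ℤ → C(X, ℝ) := fun q => ⟨fun x => Real.sqrt (T x) * trap L (q - a x), by
    refine (Real.continuous_sqrt.comp T.continuous).mul ((continuous_trap L).comp ?_)
    refine continuous_const.sub ?_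
    exact ((continuous_const.mul (continuous_sigC.comp s.continuous)).div_const κ)⟩
  have hF : ∀ q x, F q x = Real.sqrt (T x) * trap L (q - a x) := fun q x => rfl
  have hFne : ∀ (q : ℤ) x, F q x ≠ 0 → 0 < T x ∧ -1 < (q : ℝ) - a x ∧ (q : ℝ) - a x < L + 1 := by
    intro q x hq
    rw [hF] at hq
    have h1 := left_ne_zero_of_mul hq
    have h2 := trap_ne_zero (right_ne_zero_of_mul hq)
    refine ⟨?_, h2⟩
    rcases (hT0 x).eq_or_lt with h0 | h0
    · rw [← h0, Real.sqrt_zero] at h1
      exact absurd rfl h1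
    · exact h0
  have ha_eq : ∀ x, 0 < T x → a x = ((L : ℝ) + 1) * (s x - round (s x)) / κ := by
    intro x hx
    rw [ha]
    simp only
    rw [sigC_eq ((hTpos x hx).2.trans hw4)]
  have ha_abs : ∀ x, 0 < T x → |a x| ≤ ((L : ℝ) + 1) * w₀ / κ := by
    intro x hx
    rw [ha_eq x hx, abs_div, abs_mul, abs_of_pos hκ, abs_of_pos (by positivity : (0 : ℝ) < L + 1)]
    gcongr
    exact (hTpos x hx).2.le
  have hzadd : ∀ (a b : ℤ) (x : X), (h ^ (a + b)) x = (h ^ a) ((h ^ b) x) := by
    intro a b x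
    rw [zpow_add, Homeomorph.mul_apply]
  have step := shift_sum_conj h (Finset.Icc (-(Q : ℤ)) Q) (fun q => q) F ω ?_
  · refine cuntz_trans_aux (cuntz_fun_le h _ _ (1 / c) (by positivity) hT0 ?_) step
    intro x
    rcases (hT0 x).eq_or_lt with h0 | h0
    · rw [← h0]
      refine mul_nonneg (by positivity) ?_
      rw [ContinuousMap.sum_apply]
      refine Finset.sum_nonneg fun q _ => ?_
      simp only [ContinuousMap.mul_apply, ContinuousMap.comp_apply]
      exact mul_nonneg (mul_self_nonneg _) (hω0 _)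
    · obtain ⟨j, hj, hcj⟩ := hω ((h ^ ⌈a x⌉) x)
      rw [← hzadd] at hcj
      have hc1 := Int.le_ceil (a x)
      have hc2 := Int.ceil_lt_add_one (a x)
      have habs := abs_le.1 (ha_abs x h0)
      have hj' : (j : ℝ) + 1 ≤ L := by exact_mod_cast hj
      have hj0 : (0 : ℝ) ≤ j := by positivity
      have hmem : (j : ℤ) + ⌈a x⌉ ∈ Finset.Icc (-(Q : ℤ)) Q := by
        rw [Finset.mem_Icc]
        constructor
        · have : -(Q : ℝ) ≤ (((j : ℤ) + ⌈a x⌉ : ℤ) : ℝ) := by
            push_cast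
            linarith
          exact_mod_cast this
        · have : (((j : ℤ) + ⌈a x⌉ : ℤ) : ℝ) ≤ (Q : ℝ) := by
            push_cast
            linarith
          exact_mod_cast this
      have h5 : T x * c ≤ (∑ q ∈ Finset.Icc (-(Q : ℤ)) Q,
          F q * F q * ω.comp ((h ^ q : X ≃ₜ X) : C(X, X))) x := by
        rw [ContinuousMap.sum_apply]
        refine le_trans ?_ (Finset.single_le_sum (f := fun q : ℤ =>
          (F q * F q * ω.comp ((h ^ q : X ≃ₜ X) : C(X, X))) x) ?_ hmem)
        · simp only [ContinuousMap.mul_apply, ContinuousMap.comp_apply]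
          rw [hF, trap_eq_one, mul_one, Real.mul_self_sqrt (hT0 x)]
          · exact mul_le_mul_of_nonneg_left hcj (hT0 x)
          · push_cast
            linarith
          · push_cast
            linarith
        · intro q _
          simp only [ContinuousMap.mul_apply, ContinuousMap.comp_apply]
          exact mul_nonneg (mul_self_nonneg _) (hω0 _)
      calc T x = 1 / c * (T x * c) := by field_simp
        _ ≤ _ := by gcongr
  · intro q hq q' hq' hqq' x
    by_contra hne
    obtain ⟨hTx, hx1, hx2⟩ := hFne q x (left_ne_zero_of_mul hne)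
    obtain ⟨hTy, hy1, hy2⟩ := hFne q' _ (right_ne_zero_of_mul hne)
    set y := (h ^ (q - q')) x with hy
    rw [Finset.mem_Icc] at hq hq'
    have hpR : |q - q'| ≤ (R : ℤ) := by
      rw [abs_le]
      constructor <;> linarith [hq.1, hq.2, hq'.1, hq'.2]
    have hsy := hs x (hTpos x hTx).1 (q - q') hpR
    rw [← hy] at hsy
    have h1 := abs_lt.1 (hTpos x hTx).2
    have h2 := abs_lt.1 (hTpos y hTy).2
    rw [ha_eq x hTx] at hx1 hx2
    rw [ha_eq y hTy] at hy1 hy2
    set u := s x - round (s x) with hu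
    set v := s y - round (s y) with hv
    -- clear denominators
    have hx1' : -κ < q * κ - (L + 1) * u := by
      have : -1 * κ < ((q : ℝ) - (L + 1) * u / κ) * κ := by gcongr
      have e : ((q : ℝ) - (L + 1) * u / κ) * κ = q * κ - (L + 1) * u := by field_simp
      linarith
    have hx2' : q * κ - (L + 1) * u < (L + 1) * κ := by
      have : ((q : ℝ) - (L + 1) * u / κ) * κ < (L + 1) * κ := by gcongr
      have e : ((q : ℝ) - (L + 1) * u / κ) * κ = q * κ - (L + 1) * u := by field_simp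
      linarith
    have hy1' : -κ < q' * κ - (L + 1) * v := by
      have : -1 * κ < ((q' : ℝ) - (L + 1) * v / κ) * κ := by gcongr
      have e : ((q' : ℝ) - (L + 1) * v / κ) * κ = q' * κ - (L + 1) * v := by field_simp
      linarith
    have hy2' : q' * κ - (L + 1) * v < (L + 1) * κ := by
      have : ((q' : ℝ) - (L + 1) * v / κ) * κ < (L + 1) * κ := by gcongr
      have e : ((q' : ℝ) - (L + 1) * v / κ) * κ = q' * κ - (L + 1) * v := by field_simp
      linarith
    -- the integer
    have hint : v - u - (q - q') * κ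
        = ((round (s x) - round (s y) + (q - q') : ℤ) : ℝ) := by
      rw [hv, hu, hsy]
      push_cast
      ring
    have hLw1 : ((L : ℝ) + 1) * u < (L + 1) * w₀ := by gcongr; exact h1.2
    have hLw2 : -((L + 1) * w₀) < ((L : ℝ) + 1) * u := by
      have : ((L : ℝ) + 1) * (-w₀) < (L + 1) * u := by gcongr; exact h1.1
      linarith
    have hLw3 : ((L : ℝ) + 1) * v < (L + 1) * w₀ := by gcongr; exact h2.2
    have hLw4 : -((L + 1) * w₀) < ((L : ℝ) + 1) * v := by
      have : ((L : ℝ) + 1) * (-w₀) < (L + 1) * v := by gcongr; exact h2.1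
      linarith
    have hLκ : ((L : ℝ) + 2) * κ ≤ 2 * ((L : ℝ) + 1) * κ := by
      have : ((L : ℝ) + 2) ≤ 2 * ((L : ℝ) + 1) := by linarith
      gcongr
    have hz : (round (s x) - round (s y) + (q - q') : ℤ) = 0 := by
      have hlt : |v - u - ((q : ℝ) - q') * κ| < 1 := by
        rw [abs_lt]
        constructor <;> nlinarith
      have hint' : |((round (s x) - round (s y) + (q - q') : ℤ) : ℝ)| < 1 := by
        rw [← hint]; exact hlt
      have h3 : |(round (s x) - round (s y) + (q - q') : ℤ)| < 1 := by exact_mod_cast hint'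
      exact Int.abs_lt_one_iff.1 h3
    rw [hz, Int.cast_zero] at hint
    have hv' : v = u + (q - q') * κ := by linarith
    rw [hv'] at hy1' hy2'
    -- contradiction
    have hcase : q - q' ≤ -1 ∨ 1 ≤ q - q' := by omega
    rcases hcase with hp | hp
    · have hp' : ((q : ℝ) - q') ≤ -1 := by exact_mod_cast hp
      nlinarith [mul_le_mul_of_nonneg_right hp' (by positivity : 0 ≤ ((L : ℝ) + 2) * κ)]
    · have hp' : 1 ≤ ((q : ℝ) - q') := by exact_mod_cast hp
      nlinarith [mul_le_mul_of_nonneg_right hp' (by positivity : 0 ≤ ((L : ℝ) + 2) * κ)]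

end D

end Pool.Agent.Helper61.RC
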